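import Pool.Agent.Lib.MP_ab035a_co.OwnAux

set_option autoImplicit false

namespace Pool.Agent.Results.MP_ab035a_co.LinearBound

open scoped Classical

universe u

/-- The complete graph `K_N`. -/
abbrev KN (N : ℕ) : SimpleGraph (Fin N) := ⊤

/-- A subgraph `H` of `K_N` is zero-sum for the colouring `χ` of the edges of `K_N`: the sum of the
colours of the edges of `H` is `0`. -/
def ZeroSum {k N : ℕ} (χ : (KN N).edgeSet → ZMod k) (H : (KN N).Subgraph) : Prop :=
  ∑ e : (KN N).edgeSet, (if (e : Sym2 (Fin N)) ∈ H.edgeSet then χ e else 0) = 0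

/-- The numbers `N` such that every colouring of `K_N` with colours in `ℤ_k` contains a zero-sum
subgraph isomorphic to `G`. -/
def ramseySet {V : Type u} (G : SimpleGraph V) (k : ℕ) : Set ℕ :=
  {N | ∀ χ : (KN N).edgeSet → ZMod k, ∃ H : (KN N).Subgraph, Nonempty (G ≃g H.coe) ∧ ZeroSum χ H}

/-- The zero-sum Ramsey number `R(G, ℤ_k)`. -/
noncomputable def R {V : Type u} (G : SimpleGraph V) (k : ℕ) : ℕ := sInf (ramseySet G k)

/-- For every positive integer `k` there is `c` such that `R(G, ℤ_k) ≤ n + c` for every graph `G`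
on `n` vertices whose number of edges is divisible by `k`; here `R(G, ℤ_k)` is the least element of
the set of the numbers `N` with the Ramsey property, which contains all `N ≥ n + c`. -/
theorem result (k : ℕ) (hk : 0 < k) : ∃ c : ℕ, ∀ (n : ℕ) (V : Type u) [Finite V]
    (G : SimpleGraph V), Nat.card V = n → k ∣ G.edgeSet.ncard →
      IsLeast (ramseySet G k) (R G k) ∧ R G k ≤ n + c ∧ ∀ N : ℕ, n + c ≤ N → N ∈ ramseySet G k := by
  obtain ⟨c, hc⟩ := Pool.Agent.Lib.MP_ab035a_co.OwnAux.placement k hk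
  refine ⟨c, fun n V _ G hV hG => ?_⟩
  have key : ∀ N : ℕ, n + c ≤ N → N ∈ ramseySet G k := by
    intro N hN χ
    have : Fintype V := Fintype.ofFinite V
    have hcard : Fintype.card V = n := by rw [← Nat.card_eq_fintype_card]; exact hV
    let σ : V ≃ Fin n := Fintype.equivFinOfCardEq hcard
    let G' : SimpleGraph (Fin n) := G.comap σ.symm
    let iso : G' ≃g G := ⟨σ.symm, Iff.rfl⟩
    have hG' : k ∣ G'.edgeFinset.card := by
      have h1 : G'.edgeFinset.card = G.edgeFinset.card := iso.card_edgeFinset_eq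
      have h2 : G.edgeSet.ncard = G.edgeFinset.card := by
        rw [← SimpleGraph.coe_edgeFinset, Set.ncard_coe_finset]
      rw [h1, ← h2]
      exact hG
    let f : Sym2 (Fin N) → ZMod k := fun e => if h : e ∈ (KN N).edgeSet then χ ⟨e, h⟩ else 0
    obtain ⟨φ, hφ⟩ := hc n N hN G' hG' f
    let cp : SimpleGraph.Copy G' (KN N) :=
      ⟨⟨φ, fun {a b} hab => by
        rw [SimpleGraph.top_adj]
        exact fun h => hab.ne (φ.injective h)⟩, φ.injective⟩
    refine ⟨cp.toSubgraph, ⟨iso.symm.trans cp.isoToSubgraph⟩, ?_⟩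
    have hedge : cp.toSubgraph.edgeSet = Sym2.map φ '' G'.edgeSet := by
      rw [SimpleGraph.Copy.toSubgraph, SimpleGraph.Subgraph.edgeSet_map,
        SimpleGraph.Subgraph.edgeSet_top]
      rfl
    have hinj : Function.Injective (Sym2.map φ) := Sym2.map.injective φ.injective
    unfold ZeroSum
    rw [hedge]
    have h3 : ∑ e : (KN N).edgeSet, (if (e : Sym2 (Fin N)) ∈ Sym2.map φ '' G'.edgeSet then χ e
        else 0) = ∑ e ∈ (Finset.univ : Finset (Sym2 (Fin N))),
          (if e ∈ Sym2.map φ '' G'.edgeSet then f e else 0) := by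
      rw [← Finset.sum_subset (Finset.subset_univ (KN N).edgeFinset)]
      · rw [← Finset.sum_coe_sort (KN N).edgeFinset]
        refine Finset.sum_bij' (fun e _ => ⟨e.1, SimpleGraph.mem_edgeFinset.2 e.2⟩)
          (fun e _ => ⟨e.1, SimpleGraph.mem_edgeFinset.1 e.2⟩) (fun _ _ => Finset.mem_univ _)
          (fun _ _ => Finset.mem_univ _) (fun _ _ => rfl) (fun _ _ => rfl) ?_
        intro e _
        have h4 : f e.1 = χ e := by
          change (if h : e.1 ∈ (KN N).edgeSet then χ ⟨e.1, h⟩ else 0) = χ e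
          rw [dif_pos e.2]
        rw [h4]
      · intro e _ he
        have h4 : f e = 0 := by
          change (if h : e ∈ (KN N).edgeSet then χ ⟨e, h⟩ else 0) = 0
          rw [dif_neg (fun h => he (SimpleGraph.mem_edgeFinset.2 h))]
        rw [h4, ite_self]
    rw [h3, ← Finset.sum_filter]
    have h5 : Finset.univ.filter (fun e : Sym2 (Fin N) => e ∈ Sym2.map φ '' G'.edgeSet) =
        G'.edgeFinset.image (Sym2.map φ) := by
      ext e
      simp only [Finset.mem_filter, Finset.mem_univ, true_and, Set.mem_image, Finset.mem_image,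
        SimpleGraph.mem_edgeFinset]
    rw [h5, Finset.sum_image (fun a _ b _ h => hinj h)]
    exact hφ
  have hmem : R G k ∈ ramseySet G k := Nat.sInf_mem ⟨n + c, key _ le_rfl⟩
  exact ⟨⟨hmem, fun N hN => Nat.sInf_le hN⟩, Nat.sInf_le (key _ le_rfl), key⟩

end Pool.Agent.Results.MP_ab035a_co.LinearBound
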